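import Mathlib
import Pool.Agent.V11190.Quasi2

open Set Filter Topology MeasureTheory
open Pool.Agent.V11190.Quasi

namespace Pool.Agent.Results.MP_a30120_gt.NotEdgeLoop

lemma tv_affine : AffineIndependent ℝ tv := by
  rw [affineIndependent_iff]
  intro s w hw hs i hi
  -- apply the i-th barycentric functional
  have h0 : ∑ e ∈ s, w e * (tv e) 0 = 0 := by
    have := congrArg (fun v : E3 => v 0) hs
    simpa using this
  have h1 : ∑ e ∈ s, w e * (tv e) 1 = 0 := by
    have := congrArg (fun v : E3 => v 1) hs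
    simpa using this
  have h2 : ∑ e ∈ s, w e * (tv e) 2 = 0 := by
    have := congrArg (fun v : E3 => v 2) hs
    simpa using this
  have key : ∑ e ∈ s, w e * bc i (tv e) = 0 := by
    fin_cases i
    · have e : ∀ e ∈ s, w e * bc 0 (tv e) = w e - w e * (tv e) 0 - w e * (tv e) 1 +
          w e * (tv e) 2 := fun e _ => by simp only [bc, Matrix.cons_val_zero]; ring
      change ∑ e ∈ s, w e * bc 0 (tv e) = 0
      rw [Finset.sum_congr rfl e, Finset.sum_add_distrib, Finset.sum_sub_distrib,
        Finset.sum_sub_distrib, hw, h0, h1, h2]; ring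
    · have e : ∀ e ∈ s, w e * bc 1 (tv e) = w e + w e * (tv e) 0 - w e * (tv e) 1 -
          w e * (tv e) 2 := fun e _ => by simp only [bc, Matrix.cons_val_one]; simp; ring
      change ∑ e ∈ s, w e * bc 1 (tv e) = 0
      rw [Finset.sum_congr rfl e, Finset.sum_sub_distrib, Finset.sum_sub_distrib,
        Finset.sum_add_distrib, hw, h0, h1, h2]; ring
    · have e : ∀ e ∈ s, w e * bc 2 (tv e) = w e - w e * (tv e) 0 + w e * (tv e) 1 -
          w e * (tv e) 2 := fun e _ => by simp only [bc]; simp; ring
      change ∑ e ∈ s, w e * bc 2 (tv e) = 0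
      rw [Finset.sum_congr rfl e, Finset.sum_sub_distrib, Finset.sum_add_distrib,
        Finset.sum_sub_distrib, hw, h0, h1, h2]; ring
    · have e : ∀ e ∈ s, w e * bc 3 (tv e) = w e + w e * (tv e) 0 + w e * (tv e) 1 +
          w e * (tv e) 2 := fun e _ => by simp only [bc]; simp; ring
      change ∑ e ∈ s, w e * bc 3 (tv e) = 0
      rw [Finset.sum_congr rfl e, Finset.sum_add_distrib, Finset.sum_add_distrib,
        Finset.sum_add_distrib, hw, h0, h1, h2]; ring
  simp only [bc_tv, mul_ite, mul_zero] at key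
  rw [Finset.sum_ite_eq, if_pos hi] at key
  linarith

lemma Phi00 : Phi 0 0 = tv 0 := by
  ext i
  fin_cases i
  · simp [Phi, tv, W01]
  · simp [Phi, tv, W01]
  · simp [Phi, tv, W01]

lemma Phi10 : Phi 1 0 = tv 1 := by
  have w1 : W 1 = 1 := by rw [W01 zero_le_one le_rfl]; norm_num
  have w0 : W 0 = -1 := by rw [W01 le_rfl zero_le_one]; norm_num
  ext i
  fin_cases i
  · simp [Phi, tv, w1]
  · simp [Phi, tv, w0]
  · simp [Phi, tv, w1]

/-- **A two-vertex quasigeodesic which is not an edge-loop.** There are a tetrahedron with vertices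
`v 0, …, v 3` and a simple closed quasigeodesic `γ` on its surface passing through exactly two
vertices, such that `γ` does not contain the edge joining these two vertices. -/
theorem result : ∃ v : Fin 4 → E3, AffineIndependent ℝ v ∧ ∃ γ : Set E3,
    IsSimpleClosedQuasigeodesic (frontier (convexHull ℝ (range v))) γ ∧
    ∃ i j : Fin 4, i ≠ j ∧ γ ∩ range v = {v i, v j} ∧ ¬ segment ℝ (v i) (v j) ⊆ γ := by
  have w0 : W 0 = -1 := by rw [W01 le_rfl zero_le_one]; norm_num
  refine ⟨tv, tv_affine, range (cur 1), cur_quasi 1, 0, 1, by decide, ?_, ?_⟩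
  · apply Subset.antisymm
    · rintro z ⟨⟨t, rfl⟩, ⟨j, hj⟩⟩
      -- the first coordinate is ±1, so t is an integer
      have h0 : (cur 1 t) 0 = W t := by
        simp only [cur]
        split_ifs <;> simp [L, Phi]
      have h1 : W t = 1 ∨ W t = -1 := by
        rw [← h0, ← hj]
        fin_cases j <;> simp [tv]
      have hint : ∃ n : ℤ, t = n := by
        rcases h1 with h1 | h1
        · have e : W t = W 1 := by rw [h1, W01 zero_le_one le_rfl]; norm_num
          obtain ⟨k, hk | hk⟩ := W_inj e
          · exact ⟨1 + 2 * k, by push_cast; linarith⟩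
          · exact ⟨-1 + 2 * k, by push_cast; linarith⟩
        · have e : W t = W 0 := by rw [h1, w0]
          obtain ⟨k, hk | hk⟩ := W_inj e
          · exact ⟨2 * k, by push_cast; linarith⟩
          · exact ⟨2 * k, by push_cast; linarith⟩
      obtain ⟨n, rfl⟩ := hint
      have hcur : cur 1 n = Phi n 0 := by
        simp only [cur]
        split_ifs
        · exact L_int 1 n
        · exact L_int (1 + 1) n
      rw [hcur]
      rcases Int.even_or_odd' n with ⟨m, hm | hm⟩
      · left
        have e := Phi_symm (Or.inl rfl : (1 : ℝ) = 1 ∨ (1 : ℝ) = -1) 0 0 m 0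
        simp only [zero_add, Int.cast_zero, mul_zero] at e
        have e2 : ((n : ℤ) : ℝ) = 2 * m := by rw [hm]; push_cast; ring
        rw [e2, e, Phi00]
      · right
        have e := Phi_symm (Or.inl rfl : (1 : ℝ) = 1 ∨ (1 : ℝ) = -1) 1 0 m 0
        simp only [one_mul, Int.cast_zero, mul_zero, add_zero] at e
        have e2 : ((n : ℤ) : ℝ) = 1 + 2 * m := by rw [hm]; push_cast; ring
        rw [e2, e, Phi10]; rfl
    · rintro z hz
      rcases hz with hz | hz
      · rw [hz]
        refine ⟨⟨0, ?_⟩, ⟨0, rfl⟩⟩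
        rw [cur_low 1 le_rfl zero_le_one, ← Phi00]
        have := L_int 1 0
        simpa using this
      · rw [mem_singleton_iff.1 hz]
        refine ⟨⟨1, ?_⟩, ⟨1, rfl⟩⟩
        rw [cur_low 1 zero_le_one le_rfl, ← Phi10]
        have := L_int 1 1
        simpa using this
  · intro hsub
    -- the point of the edge at parameter 1/4
    have hmem : !₂[(-1 / 2 : ℝ), -1, 1 / 2] ∈ segment ℝ (tv 0) (tv 1) := by
      refine ⟨3 / 4, 1 / 4, by norm_num, by norm_num, by norm_num, ?_⟩
      ext i
      fin_cases i
      · simp [tv]; norm_num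
      · simp [tv]; norm_num
      · simp [tv]; norm_num
    obtain ⟨t, ht⟩ := hsub hmem
    have h0 : W t = -1 / 2 := by
      have h0 : (cur 1 t) 0 = W t := by
        simp only [cur]
        split_ifs <;> simp [L, Phi]
      rw [← h0, ht]; simp
    have e : W t = W (1 / 4) := by rw [h0, W01 (by norm_num) (by norm_num)]; norm_num
    -- second coordinate
    have h1 : W (2 * t) = -1 ∨ W (4 * t) = -1 := by
      have h1 := congrArg (fun v : E3 => v 1) ht
      simp only [cur] at h1
      split_ifs at h1
      · left; simpa [L, Phi] using h1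
      · right
        have e5 : (2 * ((1 + 1 : ℕ) : ℝ)) * t = 4 * t := by push_cast; ring
        have h2 : W ((2 * ((1 + 1 : ℕ) : ℝ)) * t) = -1 := by
          simpa only [L, Phi, Matrix.cons_val_one, Matrix.cons_val_zero] using h1
        rw [e5] at h2
        exact h2
    have hW2 : W (2 * t) = W (1 / 2) := by
      obtain ⟨k, hk | hk⟩ := W_inj e
      · have e2 : 2 * t = 1 / 2 + 2 * ((2 * k : ℤ) : ℝ) := by rw [hk]; push_cast; ring
        rw [e2, W_add_two]
      · have e2 : 2 * t = -(1 / 2) + 2 * ((2 * k : ℤ) : ℝ) := by rw [hk]; push_cast; ring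
        rw [e2, W_add_two, W_even]
    have hW4 : W (4 * t) = W 1 := by
      obtain ⟨k, hk | hk⟩ := W_inj e
      · have e2 : 4 * t = 1 + 2 * ((4 * k : ℤ) : ℝ) := by rw [hk]; push_cast; ring
        rw [e2, W_add_two]
      · have e2 : 4 * t = -1 + 2 * ((4 * k : ℤ) : ℝ) := by rw [hk]; push_cast; ring
        rw [e2, W_add_two, W_even]
    rcases h1 with h1 | h1
    · rw [hW2, W01 (by norm_num) (by norm_num)] at h1; norm_num at h1
    · rw [hW4, W01 (by norm_num) (by norm_num)] at h1; norm_num at h1

end Pool.Agent.Results.MP_a30120_gt.NotEdgeLoop
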